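import Mathlib

/-!
# MP_2aa58c_an: return times do not determine a minimal nilsystem with its base point

`G = ℤ ⋉ ℝ²` (a closed subgroup of the Heisenberg group), `Γ_k = kℤ ⋉ ℤ²` for `k = 1, 2`.
-/

set_option autoImplicit false
open Filter Topology Set
open scoped Manifold ContDiff

namespace Pool.Agent.Results.MP_2aa58c_an.NotDetermined

/-- The group `ℤ × ℝ × ℝ` with the law
`(n, x, y) (m, x', y') = (n + m, x + x', y + y' + n x')`. -/
def G : Type := ℤ × ℝ × ℝ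

namespace G

instance : TopologicalSpace G := inferInstanceAs (TopologicalSpace (ℤ × ℝ × ℝ))
instance : PolishSpace G := inferInstanceAs (PolishSpace (ℤ × ℝ × ℝ))

/-- constructor -/
def mk (n : ℤ) (x y : ℝ) : G := (n, x, y)

/-- first coordinate -/
def n (g : G) : ℤ := g.1
/-- second coordinate -/
def x (g : G) : ℝ := g.2.1
/-- third coordinate -/
def y (g : G) : ℝ := g.2.2

@[ext] lemma ext {g h : G} (h1 : g.n = h.n) (h2 : g.x = h.x) (h3 : g.y = h.y) : g = h :=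
  Prod.ext h1 (Prod.ext h2 h3)

instance : Mul G := ⟨fun g h => mk (g.n + h.n) (g.x + h.x) (g.y + h.y + g.n * h.x)⟩
instance : One G := ⟨mk 0 0 0⟩
instance : Inv G := ⟨fun g => mk (-g.n) (-g.x) (-g.y + g.n * g.x)⟩

@[simp] lemma mk_n (n : ℤ) (x y : ℝ) : (mk n x y).n = n := rfl
@[simp] lemma mk_x (n : ℤ) (x y : ℝ) : (mk n x y).x = x := rfl
@[simp] lemma mk_y (n : ℤ) (x y : ℝ) : (mk n x y).y = y := rfl
@[simp] lemma mul_n (g h : G) : (g * h).n = g.n + h.n := rfl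
@[simp] lemma mul_x (g h : G) : (g * h).x = g.x + h.x := rfl
@[simp] lemma mul_y (g h : G) : (g * h).y = g.y + h.y + g.n * h.x := rfl
@[simp] lemma one_n : (1 : G).n = 0 := rfl
@[simp] lemma one_x : (1 : G).x = 0 := rfl
@[simp] lemma one_y : (1 : G).y = 0 := rfl
@[simp] lemma inv_n (g : G) : (g⁻¹).n = -g.n := rfl
@[simp] lemma inv_x (g : G) : (g⁻¹).x = -g.x := rfl
@[simp] lemma inv_y (g : G) : (g⁻¹).y = -g.y + g.n * g.x := rfl

instance : Group G := Group.ofLeftAxioms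
  (fun a b c => by ext <;> simp <;> ring)
  (fun a => by ext <;> simp)
  (fun a => by ext <;> simp)

lemma continuous_n : Continuous (n : G → ℤ) := continuous_fst
lemma continuous_x : Continuous (x : G → ℝ) := continuous_fst.comp continuous_snd
lemma continuous_y : Continuous (y : G → ℝ) := continuous_snd.comp continuous_snd

/-- The manifold structure on `ℤ` (dimension zero). -/
noncomputable local instance : ChartedSpace PUnit.{1} ℤ := ChartedSpace.ofDiscreteTopology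

local instance : IsManifold (𝓘(ℝ, PUnit.{1})) ω ℤ := IsManifold.of_discreteTopology ω

/-- The product manifold structure on `G = ℤ × ℝ²`. -/
noncomputable instance : ChartedSpace (ModelProd PUnit.{1} (ℝ × ℝ)) G :=
  inferInstanceAs (ChartedSpace (ModelProd PUnit.{1} (ℝ × ℝ)) (ℤ × (ℝ × ℝ)))

/-- The model with corners (no boundary) of `G`. -/
noncomputable abbrev I := (𝓘(ℝ, PUnit.{1})).prod 𝓘(ℝ, ℝ × ℝ)

instance : IsManifold I ω G :=
  inferInstanceAs (IsManifold ((𝓘(ℝ, PUnit.{1})).prod 𝓘(ℝ, ℝ × ℝ)) ω (ℤ × (ℝ × ℝ)))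

lemma smooth_n : ContMDiff I (𝓘(ℝ, PUnit.{1})) ω (n : G → ℤ) := contMDiff_fst
lemma smooth_xy : ContMDiff I 𝓘(ℝ, ℝ × ℝ) ω (fun g : G => (g.x, g.y)) := contMDiff_snd

lemma smooth_x : ContMDiff I 𝓘(ℝ, ℝ) ω (x : G → ℝ) := contDiff_fst.contMDiff.comp smooth_xy
lemma smooth_y : ContMDiff I 𝓘(ℝ, ℝ) ω (y : G → ℝ) := contDiff_snd.contMDiff.comp smooth_xy
lemma smooth_nr : ContMDiff I 𝓘(ℝ, ℝ) ω (fun g : G => (g.n : ℝ)) :=
  (contMDiff_of_discreteTopology (I := 𝓘(ℝ, PUnit.{1})) (I' := 𝓘(ℝ, ℝ))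
    (f := fun m : ℤ => (m : ℝ))).comp smooth_n

lemma smooth_mul' : ContMDiff (I.prod I) I ω (fun p : G × G => p.1 * p.2) := by
  have h1 : ContMDiff (I.prod I) (𝓘(ℝ, PUnit.{1})) ω (fun p : G × G => p.1.n + p.2.n) :=
    (contMDiff_of_discreteTopology (I := (𝓘(ℝ, PUnit.{1})).prod (𝓘(ℝ, PUnit.{1})))
      (I' := 𝓘(ℝ, PUnit.{1})) (f := fun m : ℤ × ℤ => m.1 + m.2)).comp
      ((smooth_n.comp contMDiff_fst).prodMk (smooth_n.comp contMDiff_snd))
  have hx1 : ContMDiff (I.prod I) 𝓘(ℝ, ℝ) ω (fun p : G × G => p.1.x) := smooth_x.comp contMDiff_fst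
  have hx2 : ContMDiff (I.prod I) 𝓘(ℝ, ℝ) ω (fun p : G × G => p.2.x) := smooth_x.comp contMDiff_snd
  have hy1 : ContMDiff (I.prod I) 𝓘(ℝ, ℝ) ω (fun p : G × G => p.1.y) := smooth_y.comp contMDiff_fst
  have hy2 : ContMDiff (I.prod I) 𝓘(ℝ, ℝ) ω (fun p : G × G => p.2.y) := smooth_y.comp contMDiff_snd
  have hn1 : ContMDiff (I.prod I) 𝓘(ℝ, ℝ) ω (fun p : G × G => (p.1.n : ℝ)) :=
    smooth_nr.comp contMDiff_fst
  exact h1.prodMk ((hx1.add hx2).prodMk_space ((hy1.add hy2).add (hn1.mul hx2)))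

lemma smooth_inv' : ContMDiff I I ω (fun g : G => g⁻¹) := by
  have h1 : ContMDiff I (𝓘(ℝ, PUnit.{1})) ω (fun g : G => -g.n) :=
    (contMDiff_of_discreteTopology (I := 𝓘(ℝ, PUnit.{1}))
      (I' := 𝓘(ℝ, PUnit.{1})) (f := fun m : ℤ => -m)).comp smooth_n
  exact h1.prodMk (smooth_x.neg.prodMk_space (smooth_y.neg.add (smooth_nr.mul smooth_x)))

instance : LieGroup I ω G where
  contMDiff_mul := smooth_mul'
  contMDiff_inv := smooth_inv'

instance : IsTopologicalGroup G := topologicalGroup_of_lieGroup I ω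

instance : Group.IsNilpotent G := by
  have h1 : (⁅(⊤ : Subgroup G), ⊤⁆ : Subgroup G) ≤ Subgroup.center G := by
    rw [Subgroup.commutator_le]
    intro g _ h _
    rw [Subgroup.mem_center_iff]
    intro k
    rw [commutatorElement_def]
    ext <;> simp <;> ring
  rw [Subgroup.nilpotent_iff_lowerCentralSeries]
  refine ⟨2, ?_⟩
  rw [Subgroup.lowerCentralSeries_succ, Subgroup.lowerCentralSeries_succ,
    Subgroup.lowerCentralSeries_zero, eq_bot_iff, Subgroup.commutator_le]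
  intro g hg h _
  have h2 := Subgroup.mem_center_iff.1 (h1 hg) h
  rw [Subgroup.mem_bot, commutatorElement_def, ← h2]
  group

/-- the lattices `Γ_k` -/
def Γ (k : ℕ) : Subgroup G where
  carrier := {g | (k : ℤ) ∣ g.n ∧ (∃ a : ℤ, g.x = a) ∧ ∃ b : ℤ, g.y = b}
  mul_mem' := by
    rintro g h ⟨h1, ⟨a, ha⟩, b, hb⟩ ⟨h2, ⟨a', ha'⟩, b', hb'⟩
    refine ⟨dvd_add h1 h2, ⟨a + a', ?_⟩, b + b' + g.n * a', ?_⟩
    · rw [mul_x, ha, ha']; push_cast; ring
    · rw [mul_y, hb, hb', ha']; push_cast; ring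
  one_mem' := ⟨dvd_zero _, ⟨0, by simp⟩, 0, by simp⟩
  inv_mem' := by
    rintro g ⟨h1, ⟨a, ha⟩, b, hb⟩
    refine ⟨(dvd_neg).2 h1, ⟨-a, ?_⟩, -b + g.n * a, ?_⟩
    · rw [inv_x, ha]; push_cast; ring
    · rw [inv_y, hb, ha]; push_cast; ring

lemma mem_Γ {k : ℕ} {g : G} :
    g ∈ Γ k ↔ (k : ℤ) ∣ g.n ∧ (∃ a : ℤ, g.x = a) ∧ ∃ b : ℤ, g.y = b := Iff.rfl

/-- the translation -/
noncomputable def τ : G := mk 1 (Real.sqrt 2) 0

lemma τ_pow_n (m : ℤ) : (τ ^ m).n = m := by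
  let f : G →* Multiplicative ℤ :=
    { toFun := fun g => Multiplicative.ofAdd g.n, map_one' := rfl, map_mul' := fun _ _ => rfl }
  have h : f (τ ^ m) = f τ ^ m := map_zpow f τ m
  have h2 : f τ ^ m = Multiplicative.ofAdd (m • (1 : ℤ)) := (ofAdd_zsmul _ _).symm
  rw [h2] at h
  have h3 : (τ ^ m).n = m • (1 : ℤ) := congrArg Multiplicative.toAdd h
  rw [h3, smul_eq_mul, mul_one]

lemma τ_pow_x (m : ℤ) : (τ ^ m).x = m * Real.sqrt 2 := by
  let f : G →* Multiplicative ℝ :=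
    { toFun := fun g => Multiplicative.ofAdd g.x, map_one' := rfl, map_mul' := fun _ _ => rfl }
  have h : f (τ ^ m) = f τ ^ m := map_zpow f τ m
  have h2 : f τ ^ m = Multiplicative.ofAdd (m • (Real.sqrt 2)) := (ofAdd_zsmul _ _).symm
  rw [h2] at h
  have h3 : (τ ^ m).x = m • Real.sqrt 2 := congrArg Multiplicative.toAdd h
  rw [h3, zsmul_eq_mul]

/-! ### The Lebesgue-type facts about the homogeneous spaces -/

lemma coe_eq {k : ℕ} {g h : G} : (g : G ⧸ Γ k) = h ↔ g⁻¹ * h ∈ Γ k := QuotientGroup.eq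

lemma coe_mul_Γ {k : ℕ} {g γ : G} (hγ : γ ∈ Γ k) : ((g * γ : G) : G ⧸ Γ k) = g := by
  rw [eq_comm, coe_eq, inv_mul_cancel_left]
  exact hγ

lemma smul_coe {k : ℕ} (g h : G) : g • (h : G ⧸ Γ k) = ((g * h : G) : G ⧸ Γ k) := rfl

/-- central elements -/
def u (c : ℝ) : G := mk 0 0 c

lemma continuous_coe' (k : ℕ) : Continuous ((↑) : G → G ⧸ Γ k) := QuotientGroup.continuous_mk

lemma continuous_mk2 {Z : Type*} [TopologicalSpace Z] {m : ℤ} {f g : Z → ℝ} (hf : Continuous f)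
    (hg : Continuous g) : Continuous fun z => mk m (f z) (g z) :=
  continuous_const.prodMk (hf.prodMk hg)

instance discrete (k : ℕ) : DiscreteTopology (Γ k) := by
  apply discreteTopology_of_isOpen_singleton_one
  have hopen : IsOpen {g : Γ k | g.1.n = 0 ∧ |g.1.x| < 1 ∧ |g.1.y| < 1} := by
    have h1 : IsOpen {g : G | g.n = 0 ∧ |g.x| < 1 ∧ |g.y| < 1} := by
      have a1 : IsOpen {g : G | g.n = 0} := (isOpen_discrete {(0 : ℤ)}).preimage continuous_n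
      have a2 : IsOpen {g : G | |g.x| < 1} := isOpen_lt continuous_x.abs continuous_const
      have a3 : IsOpen {g : G | |g.y| < 1} := isOpen_lt continuous_y.abs continuous_const
      exact a1.inter (a2.inter a3)
    exact h1.preimage continuous_subtype_val
  have heq : {g : Γ k | g.1.n = 0 ∧ |g.1.x| < 1 ∧ |g.1.y| < 1} = {1} := by
    ext g
    simp only [mem_setOf_eq, mem_singleton_iff]
    constructor
    · rintro ⟨h1, h2, h3⟩
      obtain ⟨-, ⟨a, ha⟩, b, hb⟩ := g.2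
      rw [ha] at h2
      rw [hb] at h3
      have ha0 : a = 0 := by
        have : |a| < 1 := by exact_mod_cast h2
        rw [abs_lt] at this; omega
      have hb0 : b = 0 := by
        have : |b| < 1 := by exact_mod_cast h3
        rw [abs_lt] at this; omega
      apply Subtype.ext
      ext
      · exact h1
      · rw [ha, ha0]; simp
      · rw [hb, hb0]; simp
    · rintro rfl
      simp
  rw [← heq]
  exact hopen

lemma exists_rep {k : ℕ} (hk : 0 < k) (g : G) : ∃ h : G, (h : G ⧸ Γ k) = g ∧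
    (0 ≤ h.n ∧ h.n < k) ∧ (0 ≤ h.x ∧ h.x ≤ 1) ∧ (0 ≤ h.y ∧ h.y ≤ 1) := by
  have hk' : (0 : ℤ) < k := by exact_mod_cast hk
  let γ : G := mk (-(k * (g.n / k))) (-(⌊g.x⌋ : ℝ)) (-(⌊g.y - g.n * ⌊g.x⌋⌋ : ℝ))
  have hγ : γ ∈ Γ k := ⟨⟨-(g.n / k), by simp [γ]⟩, ⟨-⌊g.x⌋, by simp [γ]⟩,
    ⟨-⌊g.y - g.n * ⌊g.x⌋⌋, by simp [γ]⟩⟩
  refine ⟨g * γ, coe_mul_Γ hγ, ?_, ?_, ?_⟩
  · have h1 : (g * γ).n = g.n % k := by
      simp only [mul_n, γ, mk_n]
      have := Int.mul_ediv_add_emod g.n k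
      linarith
    rw [h1]
    exact ⟨Int.emod_nonneg _ hk'.ne', Int.emod_lt_of_pos _ hk'⟩
  · have h1 : (g * γ).x = Int.fract g.x := by
      simp only [mul_x, γ, mk_x, Int.fract]; ring
    rw [h1]
    exact ⟨Int.fract_nonneg _, (Int.fract_lt_one _).le⟩
  · have h1 : (g * γ).y = Int.fract (g.y - g.n * ⌊g.x⌋) := by
      simp only [mul_y, γ, mk_y, mk_x, Int.fract]; ring
    rw [h1]
    exact ⟨Int.fract_nonneg _, (Int.fract_lt_one _).le⟩

lemma compact {k : ℕ} (hk : 0 < k) : CompactSpace (G ⧸ Γ k) := by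
  have hK : IsCompact ((Icc (0 : ℤ) k) ×ˢ ((Icc (0 : ℝ) 1) ×ˢ (Icc (0 : ℝ) 1)) :
      Set (ℤ × ℝ × ℝ)) :=
    ((finite_Icc _ _).isCompact).prod (isCompact_Icc.prod isCompact_Icc)
  have hK2 : IsCompact ((fun g : G => (g : G ⧸ Γ k)) ''
      (show Set G from ((Icc (0 : ℤ) k) ×ˢ ((Icc (0 : ℝ) 1) ×ˢ (Icc (0 : ℝ) 1)) :
        Set (ℤ × ℝ × ℝ)))) := IsCompact.image hK (continuous_coe' k)
  rw [← isCompact_univ_iff]
  refine (congrArg IsCompact ?_).mp hK2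
  rw [eq_univ_iff_forall]
  intro q
  obtain ⟨g, rfl⟩ := QuotientGroup.mk_surjective q
  obtain ⟨h, hh, h1, h2, h3⟩ := exists_rep hk g
  exact ⟨h, ⟨⟨h1.1, h1.2.le⟩, h2, h3⟩, hh⟩

/-! ### Minimality -/

/-- closed nonempty invariant sets -/
def Inv (k : ℕ) : Set (Set (G ⧸ Γ k)) :=
  {C | IsClosed C ∧ C.Nonempty ∧ ∀ m : ℤ, ∀ z ∈ C, τ ^ m • z ∈ C}

lemma exists_minimal {k : ℕ} (hk : 0 < k) {C : Set (G ⧸ Γ k)} (hC : C ∈ Inv k) :
    ∃ M, M ⊆ C ∧ Minimal (· ∈ Inv k) M := by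
  haveI := compact hk
  refine zorn_superset_nonempty (Inv k) ?_ C hC
  intro c hc hchain hcne
  refine ⟨⋂₀ c, ⟨isClosed_sInter fun s hs => (hc hs).1, ?_, ?_⟩, fun s hs => sInter_subset_of_mem hs⟩
  · haveI : Nonempty c := hcne.to_subtype
    rw [sInter_eq_iInter]
    apply IsCompact.nonempty_iInter_of_directed_nonempty_isCompact_isClosed
    · intro s t
      rcases hchain.total s.2 t.2 with h | h
      · exact ⟨s, le_rfl, h⟩
      · exact ⟨t, h, le_rfl⟩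
    · exact fun s => (hc s.2).2.1
    · exact fun s => (hc s.2).1.isCompact
    · exact fun s => (hc s.2).1
  · intro m z hz s hs
    exact (hc hs).2.2 m z (hz s hs)

lemma orbit_inv {k : ℕ} (z : G ⧸ Γ k) : closure (range fun m : ℤ => τ ^ m • z) ∈ Inv k := by
  refine ⟨isClosed_closure, (range_nonempty _).closure, fun m w hw => ?_⟩
  have h1 : τ ^ m • w ∈ closure ((fun w => τ ^ m • w) '' (range fun m : ℤ => τ ^ m • z)) :=
    image_closure_subset_closure_image (continuous_const_smul _) (mem_image_of_mem _ hw)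
  refine closure_mono ?_ h1
  rintro _ ⟨_, ⟨j, rfl⟩, rfl⟩
  exact ⟨m + j, by simp only [zpow_add, mul_smul]⟩

/-- uniform recurrence -/
lemma recur {k : ℕ} (hk : 0 < k) {M : Set (G ⧸ Γ k)} (hM : Minimal (· ∈ Inv k) M)
    {z : G ⧸ Γ k} (hz : z ∈ M) {V : Set (G ⧸ Γ k)} (hV : V ∈ 𝓝 z) :
    ∃ L : ℕ, ∀ w ∈ M, ∃ m : ℤ, |m| ≤ L ∧ τ ^ m • w ∈ V := by
  haveI := compact hk
  obtain ⟨O, hOV, hO, hzO⟩ := mem_nhds_iff.1 hV
  have hcov : ∀ w ∈ M, ∃ m : ℤ, τ ^ m • w ∈ O := by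
    intro w hw
    have h1 : closure (range fun m : ℤ => τ ^ m • w) ⊆ M :=
      closure_minimal (by rintro _ ⟨m, rfl⟩; exact hM.prop.2.2 m w hw) hM.prop.1
    have h2 : z ∈ closure (range fun m : ℤ => τ ^ m • w) := hM.le_of_le (orbit_inv w) h1 hz
    obtain ⟨_, hy, ⟨m, rfl⟩⟩ := mem_closure_iff.1 h2 O hO hzO
    exact ⟨m, hy⟩
  have hMc : IsCompact M := hM.prop.1.isCompact
  obtain ⟨T, hT⟩ := hMc.elim_finite_subcover (fun m : ℤ => {w : G ⧸ Γ k | τ ^ m • w ∈ O})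
    (fun m => hO.preimage (continuous_const_smul _)) (fun w hw => mem_iUnion.2 (hcov w hw))
  refine ⟨T.sup Int.natAbs, fun w hw => ?_⟩
  obtain ⟨m, hm⟩ := mem_iUnion.1 (hT hw)
  obtain ⟨hmT, hmw⟩ := mem_iUnion.1 hm
  refine ⟨m, ?_, hOV hmw⟩
  have := Finset.le_sup (f := Int.natAbs) hmT
  rw [Int.abs_eq_natAbs]
  exact_mod_cast this

lemma irr (q a : ℤ) (h : (q : ℝ) * Real.sqrt 2 = a) : q = 0 := by
  by_contra hq
  have hq' : (q : ℝ) ≠ 0 := by exact_mod_cast hq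
  apply irrational_sqrt_two
  exact ⟨(a : ℚ) / q, by push_cast; rw [← h]; field_simp⟩

/-- the minimal sets are invariant under the central direction -/
lemma spread {k : ℕ} (hk : 0 < k) {M : Set (G ⧸ Γ k)} (hM : Minimal (· ∈ Inv k) M)
    {z : G ⧸ Γ k} (hz : z ∈ M) (c : ℝ) : u c • z ∈ M := by
  haveI := compact hk
  rw [← hM.prop.1.closure_eq, mem_closure_iff_nhds]
  intro O hO
  have hcont : Continuous fun p : G × (G ⧸ Γ k) => p.1 • p.2 := continuous_smul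
  have h1 : (fun p : G × (G ⧸ Γ k) => p.1 • p.2) ⁻¹' O ∈ 𝓝 (u c, z) :=
    hcont.continuousAt.preimage_mem_nhds hO
  rw [nhds_prod_eq, Filter.mem_prod_iff] at h1
  obtain ⟨N, hN, W, hW, hNW⟩ := h1
  -- a small box around `u c`
  obtain ⟨ε, hε, hεN⟩ : ∃ ε > 0, ∀ a b : ℝ, |a| < ε → |b - c| < ε → mk 0 a b ∈ N := by
    have hcm : Continuous fun p : ℝ × ℝ => mk 0 p.1 p.2 := continuous_mk2 continuous_fst continuous_snd
    have h2 : (fun p : ℝ × ℝ => mk 0 p.1 p.2) ⁻¹' N ∈ 𝓝 ((0 : ℝ), c) :=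
      hcm.continuousAt.preimage_mem_nhds hN
    obtain ⟨ε, hε, hb⟩ := Metric.mem_nhds_iff.1 h2
    refine ⟨ε, hε, fun a b ha hb' => ?_⟩
    have h3 : (a, b) ∈ Metric.ball ((0 : ℝ), c) ε := by
      rw [Metric.mem_ball, Prod.dist_eq, max_lt_iff, Real.dist_eq, Real.dist_eq, sub_zero]
      exact ⟨ha, hb'⟩
    exact hb h3
  obtain ⟨L, hL⟩ := recur hk hM hz hW
  -- a nearby point of the orbit
  obtain ⟨g₀, rfl⟩ := QuotientGroup.mk_surjective z
  have hV : (fun g : G => (((g * g₀ : G)) : G ⧸ Γ k)) ''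
      {g : G | g.n = 0 ∧ |g.x| < ε / (L + 1)} ∈ 𝓝 ((g₀ : G) : G ⧸ Γ k) := by
    have ho : IsOpenMap (fun g : G => (((g * g₀ : G)) : G ⧸ Γ k)) :=
      QuotientGroup.isOpenMap_coe.comp (Homeomorph.mulRight g₀).isOpenMap
    have hop : IsOpen {g : G | g.n = 0 ∧ |g.x| < ε / (L + 1)} := by
      have a1 : IsOpen {g : G | g.n = 0} := (isOpen_discrete {(0 : ℤ)}).preimage continuous_n
      have a2 : IsOpen {g : G | |g.x| < ε / (L + 1)} := isOpen_lt continuous_x.abs continuous_const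
      exact a1.inter a2
    refine (ho _ hop).mem_nhds ⟨1, ⟨rfl, ?_⟩, by simp⟩
    rw [one_x, abs_zero]; positivity
  obtain ⟨L', hL'⟩ := recur hk hM hz hV
  obtain ⟨j, hj, ⟨h, ⟨hn0, hxs⟩, hh⟩⟩ := hL' _ (hM.prop.2.2 (L' + 1) _ hz)
  set q : ℤ := j + (L' + 1) with hq
  have hqpos : 0 < q := by rw [abs_le] at hj; omega
  have hhq : h • ((g₀ : G) : G ⧸ Γ k) = τ ^ q • ((g₀ : G) : G ⧸ Γ k) := by
    rw [hq, zpow_add, mul_smul]
    exact hh
  have hδ : h.x ≠ 0 := by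
    intro h0
    rw [smul_coe, smul_coe, coe_eq] at hhq
    obtain ⟨-, ⟨a, ha⟩, -⟩ := hhq
    have h2 : ((h * g₀)⁻¹ * (τ ^ q * g₀)).x = q * Real.sqrt 2 := by
      simp only [mul_x, inv_x, τ_pow_x, h0]; ring
    rw [h2] at ha
    have := irr q a ha
    omega
  set δ := h.x with hδd
  set n0 : ℤ := ⌊(c - h.y) / δ⌋ with hn0d
  obtain ⟨i, hi, hiW⟩ := hL _ (hM.prop.2.2 n0 _ hz)
  set m : ℤ := i + n0 with hm
  have hconj : τ ^ m * h = mk 0 δ (h.y + m * δ) * τ ^ m := by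
    ext
    · simp only [mul_n, mk_n, hn0]; ring
    · simp only [mul_x, mk_x, ← hδd]; ring
    · simp only [mul_y, mk_y, mk_n, τ_pow_n, ← hδd]; push_cast; ring
  refine ⟨mk 0 δ (h.y + m * δ) • τ ^ m • ((g₀ : G) : G ⧸ Γ k), ?_, ?_⟩
  · have hp : (mk 0 δ (h.y + m * δ), τ ^ m • ((g₀ : G) : G ⧸ Γ k)) ∈ N ×ˢ W := by
      refine ⟨hεN _ _ ?_ ?_, ?_⟩
      · refine hxs.trans_le (div_le_self hε.le ?_)
        have : (0 : ℝ) ≤ L := Nat.cast_nonneg L
        linarith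
      · -- the height
        have hfl := Int.floor_le ((c - h.y) / δ)
        have hfl' := Int.lt_floor_add_one ((c - h.y) / δ)
        rw [← hn0d] at hfl hfl'
        have h3 : |h.y + n0 * δ - c| ≤ |δ| := by
          have h4 : h.y + n0 * δ - c = (n0 - (c - h.y) / δ) * δ := by field_simp; ring
          rw [h4, abs_mul]
          have h5 : |(n0 : ℝ) - (c - h.y) / δ| ≤ 1 := by rw [abs_le]; constructor <;> linarith
          calc _ ≤ 1 * |δ| := mul_le_mul_of_nonneg_right h5 (abs_nonneg _)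
            _ = |δ| := one_mul _
        have h6 : |(i : ℝ) * δ| ≤ L * |δ| := by
          rw [abs_mul]
          apply mul_le_mul_of_nonneg_right _ (abs_nonneg _)
          exact_mod_cast hi
        have h7 : h.y + m * δ - c = (h.y + n0 * δ - c) + i * δ := by rw [hm]; push_cast; ring
        rw [h7]
        refine lt_of_le_of_lt (abs_add_le _ _) ?_
        rw [lt_div_iff₀ (by positivity)] at hxs
        nlinarith
      · have : τ ^ m • ((g₀ : G) : G ⧸ Γ k) = τ ^ i • τ ^ n0 • ((g₀ : G) : G ⧸ Γ k) := by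
          rw [hm, zpow_add, mul_smul]
        rw [this]
        exact hiW
    exact hNW hp
  · rw [← mul_smul, ← hconj, mul_smul, hhq]
    exact hM.prop.2.2 _ _ (hM.prop.2.2 _ _ hz)

/-- all the translations are minimal -/
lemma minimal {k : ℕ} (hk : 0 < k) (z : G ⧸ Γ k) : Dense (range fun m : ℤ => τ ^ m • z) := by
  haveI := compact hk
  obtain ⟨M, hMC, hM⟩ := exists_minimal hk (orbit_inv z)
  have hMu : M = univ := by
    rw [eq_univ_iff_forall]
    intro w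
    obtain ⟨gw, rfl⟩ := QuotientGroup.mk_surjective w
    obtain ⟨z₁, hz₁⟩ := hM.prop.2.1
    obtain ⟨g₁, rfl⟩ := QuotientGroup.mk_surjective z₁
    change ((gw : G) : G ⧸ Γ k) ∈ M
    change ((g₁ : G) : G ⧸ Γ k) ∈ M at hz₁
    rw [← hM.prop.1.closure_eq, mem_closure_iff_nhds]
    intro O hO
    obtain ⟨ε, hε, hεO⟩ : ∃ ε > 0, ∀ a : ℝ, |a - gw.x| < ε →
        ((mk gw.n a gw.y : G) : G ⧸ Γ k) ∈ O := by
      have hcm : Continuous fun a : ℝ => ((mk gw.n a gw.y : G) : G ⧸ Γ k) :=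
        (continuous_coe' k).comp (continuous_mk2 continuous_id continuous_const)
      have h2 : (fun a : ℝ => ((mk gw.n a gw.y : G) : G ⧸ Γ k)) ⁻¹' O ∈ 𝓝 gw.x := by
        apply hcm.continuousAt.preimage_mem_nhds
        exact hO
      obtain ⟨ε, hε, hb⟩ := Metric.mem_nhds_iff.1 h2
      exact ⟨ε, hε, fun a ha => hb (by rw [Metric.mem_ball, Real.dist_eq]; exact ha)⟩
    have hd : Dense (AddSubgroup.closure {(k : ℝ) * Real.sqrt 2, 1} : Set ℝ) := by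
      rw [dense_addSubgroupClosure_pair_iff, div_one]
      exact irrational_sqrt_two.natCast_mul hk.ne'
    set t : ℝ := gw.x - g₁.x - (gw.n - g₁.n) * Real.sqrt 2 with ht
    obtain ⟨v, hv, hvd⟩ := Metric.dense_iff.1 hd t ε hε
    obtain ⟨j, a, hja⟩ := AddSubgroup.mem_closure_pair.1 hvd
    set m : ℤ := k * j + (gw.n - g₁.n) with hm
    -- the point
    let γ : G := mk (gw.n - g₁.n - m) a 0
    have hγ : γ ∈ Γ k := ⟨⟨-j, by simp [γ, hm]⟩, ⟨a, rfl⟩, ⟨0, by simp [γ]⟩⟩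
    have h3 : τ ^ m • ((g₁ : G) : G ⧸ Γ k) ∈ M := hM.prop.2.2 m _ hz₁
    have h4 : τ ^ m • ((g₁ : G) : G ⧸ Γ k) = ((τ ^ m * g₁ * γ : G) : G ⧸ Γ k) := by
      rw [smul_coe, coe_mul_Γ hγ]
    rw [h4] at h3
    have h5 := spread hk hM h3 (gw.y - (τ ^ m * g₁ * γ).y)
    rw [smul_coe] at h5
    have h6 : u (gw.y - (τ ^ m * g₁ * γ).y) * (τ ^ m * g₁ * γ) =
        mk gw.n (m * Real.sqrt 2 + g₁.x + a) gw.y := by
      ext
      · simp only [mul_n, u, mk_n, τ_pow_n, γ]; ring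
      · simp only [mul_x, u, mk_x, τ_pow_x, γ]; ring
      · rw [mul_y (u _)]
        simp only [u, mk_y, mk_n]; push_cast; ring
    rw [h6] at h5
    refine ⟨_, hεO _ ?_, h5⟩
    rw [Metric.mem_ball, Real.dist_eq] at hv
    have h7 : m * Real.sqrt 2 + g₁.x + a - gw.x = v - t := by
      rw [← hja, ht, hm]
      simp only [zsmul_eq_mul]
      push_cast; ring
    rw [h7]
    exact hv
  rw [dense_iff_closure_eq, ← univ_subset_iff, ← hMu]
  exact hMC

/-! ### The open sets -/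

/-- `P`: the reals whose class modulo one is in `(0, 1/4)` -/
def P : Set ℝ := {t | ∃ a : ℤ, t + a ∈ Ioo (0 : ℝ) (1 / 4)}

/-- its closure -/
def C : Set ℝ := {t | ∃ a : ℤ, t + a ∈ Icc (0 : ℝ) (1 / 4)}

lemma P_open : IsOpen P := by
  have : P = ⋃ a : ℤ, (fun t : ℝ => t + a) ⁻¹' Ioo 0 (1 / 4) := by
    ext t; simp only [P, mem_setOf_eq, mem_iUnion, mem_preimage]
  rw [this]
  exact isOpen_iUnion fun a => isOpen_Ioo.preimage (continuous_add_const _)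

lemma C_closed : IsClosed C := by
  have h1 : C = ((↑) : ℝ → UnitAddCircle) ⁻¹' (((↑) : ℝ → UnitAddCircle) '' Icc 0 (1 / 4)) := by
    ext t
    simp only [C, mem_setOf_eq, mem_preimage, mem_image]
    constructor
    · rintro ⟨a, ha⟩
      refine ⟨t + a, ha, ?_⟩
      have h0 : ((a : ℝ) : UnitAddCircle) = 0 :=
        (AddCircle.coe_eq_zero_iff 1).2 ⟨a, by simp⟩
      rw [AddCircle.coe_add, h0, add_zero]
    · rintro ⟨s, hs, hst⟩
      have h0 : ((s - t : ℝ) : UnitAddCircle) = 0 := by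
        rw [AddCircle.coe_sub, hst, sub_self]
      obtain ⟨a, ha⟩ := (AddCircle.coe_eq_zero_iff 1).1 h0
      refine ⟨a, ?_⟩
      have : t + a = s := by
        have : (a : ℝ) = s - t := by simpa using ha
        linarith
      rw [this]; exact hs
  rw [h1]
  exact (isCompact_Icc.image (AddCircle.continuous_mk' 1)).isClosed.preimage
    (AddCircle.continuous_mk' 1)

lemma closure_P : closure P = C := by
  apply subset_antisymm
  · apply closure_minimal _ C_closed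
    rintro t ⟨a, ha⟩
    exact ⟨a, Ioo_subset_Icc_self ha⟩
  · rintro t ⟨a, ha⟩
    have h1 : t + a ∈ closure (Ioo (0 : ℝ) (1 / 4)) := by
      rw [closure_Ioo (by norm_num)]; exact ha
    have h2 : t ∈ (fun s : ℝ => s + (-(a : ℝ))) '' closure (Ioo (0 : ℝ) (1 / 4)) :=
      ⟨t + a, h1, by ring⟩
    have h3 := image_closure_subset_closure_image (continuous_add_const (-(a : ℝ))) h2
    refine closure_mono ?_ h3
    rintro _ ⟨s, hs, rfl⟩
    exact ⟨a, by simpa using hs⟩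

lemma C_period {t : ℝ} (a : ℤ) : t + a ∈ C ↔ t ∈ C := by
  constructor
  · rintro ⟨b, hb⟩
    exact ⟨a + b, by push_cast; rwa [← add_assoc]⟩
  · rintro ⟨b, hb⟩
    exact ⟨b - a, by push_cast; rw [show t + a + (b - a) = t + b by ring]; exact hb⟩

lemma P_period {t : ℝ} (a : ℤ) : t + a ∈ P ↔ t ∈ P := by
  constructor
  · rintro ⟨b, hb⟩
    exact ⟨a + b, by push_cast; rwa [← add_assoc]⟩
  · rintro ⟨b, hb⟩
    exact ⟨b - a, by push_cast; rw [show t + a + (b - a) = t + b by ring]; exact hb⟩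

lemma C_mem {t : ℝ} (h0 : 0 ≤ t) (h1 : t ≤ 1 / 4) : t ∈ C :=
  ⟨0, by rw [Int.cast_zero, add_zero]; exact ⟨h0, h1⟩⟩

/-- only integers preserve `0 ∈ C` in both directions -/
lemma C_stab {b : ℝ} (h1 : b ∈ C) (h2 : -b ∈ C) : ∃ a : ℤ, b = a := by
  obtain ⟨a, ha0, ha1⟩ := h1
  obtain ⟨c, hc0, hc1⟩ := h2
  have h3 : (0 : ℝ) ≤ (a + c : ℤ) := by push_cast; linarith
  have h4 : ((a + c : ℤ) : ℝ) ≤ 1 / 2 := by push_cast; linarith
  have h5 : a + c = 0 := by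
    have h6 : (0 : ℤ) ≤ a + c := by exact_mod_cast h3
    have h7 : a + c < 1 := by
      have : ((a + c : ℤ) : ℝ) < 1 := by linarith
      exact_mod_cast this
    omega
  refine ⟨-a, ?_⟩
  have h8 : (c : ℝ) = -a := by
    have : ((a + c : ℤ) : ℝ) = 0 := by rw [h5]; simp
    push_cast at this; linarith
  push_cast
  rw [h8] at hc0
  linarith

/-- the open sets `U_k` -/
def U (k : ℕ) : Set (G ⧸ Γ k) := (fun g : G => (g : G ⧸ Γ k)) '' {g : G | g.x ∈ P ∧ g.y ∈ P}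

lemma sat {k : ℕ} {D : Set ℝ} (hD : ∀ (t : ℝ) (a : ℤ), t + a ∈ D ↔ t ∈ D) {g h : G}
    (hgh : (g : G ⧸ Γ k) = h) (hg : g.x ∈ D ∧ g.y ∈ D) : h.x ∈ D ∧ h.y ∈ D := by
  rw [coe_eq] at hgh
  obtain ⟨-, ⟨a, ha⟩, b, hb⟩ := hgh
  have hx : h.x = g.x + a := by
    have : (g⁻¹ * h).x = h.x - g.x := by simp only [mul_x, inv_x]; ring
    rw [this] at ha; linarith
  have hy : h.y = g.y + ((b + g.n * a : ℤ) : ℝ) := by
    have : (g⁻¹ * h).y = h.y - g.y - g.n * a := by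
      simp only [mul_y, inv_y, inv_n, hx]; push_cast; ring
    rw [this] at hb
    push_cast; linarith
  rw [hx, hy, hD, hD]
  exact hg

lemma preimage_U (k : ℕ) : (fun g : G => (g : G ⧸ Γ k)) ⁻¹' U k = {g : G | g.x ∈ P ∧ g.y ∈ P} := by
  ext g
  constructor
  · rintro ⟨h, hh, he⟩
    exact sat (fun t a => P_period a) he hh
  · intro hg
    exact ⟨g, hg, rfl⟩

lemma U_open (k : ℕ) : IsOpen (U k) := by
  apply QuotientGroup.isOpenMap_coe
  exact (P_open.preimage continuous_x).inter (P_open.preimage continuous_y)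

lemma preimage_closure_U (k : ℕ) :
    (fun g : G => (g : G ⧸ Γ k)) ⁻¹' closure (U k) = {g : G | g.x ∈ C ∧ g.y ∈ C} := by
  have h1 : IsOpenMap (fun g : G => (g : G ⧸ Γ k)) := QuotientGroup.isOpenMap_coe
  rw [h1.preimage_closure_eq_closure_preimage (continuous_coe' k), preimage_U, ← closure_P]
  have h2 : {g : G | g.x ∈ P ∧ g.y ∈ P} = (univ ×ˢ (P ×ˢ P) : Set (ℤ × ℝ × ℝ)) := by
    ext g; exact ⟨fun h => ⟨mem_univ _, h⟩, fun h => h.2⟩
  have h3 : {g : G | g.x ∈ closure P ∧ g.y ∈ closure P} =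
      (univ ×ˢ (closure P ×ˢ closure P) : Set (ℤ × ℝ × ℝ)) := by
    ext g; exact ⟨fun h => ⟨mem_univ _, h⟩, fun h => h.2⟩
  rw [h2, h3]
  have h4 : closure ((univ ×ˢ (P ×ˢ P) : Set (ℤ × ℝ × ℝ))) =
      univ ×ˢ (closure P ×ˢ closure P) := by
    rw [closure_prod_eq, closure_prod_eq, closure_univ]
  exact h4

lemma mem_closure_U {k : ℕ} {g : G} : (g : G ⧸ Γ k) ∈ closure (U k) ↔ g.x ∈ C ∧ g.y ∈ C := by
  have := preimage_closure_U k
  exact Set.ext_iff.1 this g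

/-- the closure of `U_k` is asymmetric -/
lemma asym {k : ℕ} {g : G} (h : (fun z : G ⧸ Γ k => g • z) '' closure (U k) = closure (U k))
    (z : G ⧸ Γ k) : g • z = z := by
  have h1 : ∀ w : G, w.x ∈ C → w.y ∈ C → (g * w).x ∈ C ∧ (g * w).y ∈ C := by
    intro w hx hy
    rw [← mem_closure_U (k := k), ← smul_coe, ← h]
    exact mem_image_of_mem _ (mem_closure_U.2 ⟨hx, hy⟩)
  have h2 : ∀ w : G, w.x ∈ C → w.y ∈ C → (g⁻¹ * w).x ∈ C ∧ (g⁻¹ * w).y ∈ C := by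
    intro w hx hy
    rw [← mem_closure_U (k := k), ← smul_coe]
    have h3 : (w : G ⧸ Γ k) ∈ (fun z : G ⧸ Γ k => g • z) '' closure (U k) := by
      rw [h]; exact mem_closure_U.2 ⟨hx, hy⟩
    obtain ⟨v, hv, hvw⟩ := h3
    have h4 : g⁻¹ • (w : G ⧸ Γ k) = v := by
      rw [← hvw]; exact inv_smul_smul g v
    rw [h4]; exact hv
  have c0 : (0 : ℝ) ∈ C := C_mem le_rfl (by norm_num)
  -- the horizontal translation
  obtain ⟨a, ha⟩ : ∃ a : ℤ, g.x = a := by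
    apply C_stab
    · have := (h1 (mk 0 0 0) c0 c0).1
      simpa using this
    · have := (h2 (mk 0 0 0) c0 c0).1
      simpa using this
  -- the vertical translation over `t`
  have hvert : ∀ t : ℝ, 0 ≤ t → t ≤ 1 / 4 → ∃ b : ℤ, g.y + g.n * t = b := by
    intro t ht0 ht1
    apply C_stab
    · have := (h1 (mk 0 t 0) (C_mem ht0 ht1) c0).2
      simp only [mul_y, mk_y, mk_x, add_zero] at this
      exact this
    · have h3 : t + a ∈ C := (C_period a).2 (C_mem ht0 ht1)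
      have := (h2 (mk 0 (t + a) 0) h3 c0).2
      simp only [mul_y, inv_y, inv_n, mk_y, mk_x, add_zero, ha] at this
      have h4 : -(g.y + g.n * t) = -g.y + g.n * a + ((-g.n : ℤ) : ℝ) * (t + a) := by
        push_cast; ring
      rw [h4]; exact this
  obtain ⟨b, hb⟩ := hvert 0 le_rfl (by norm_num)
  have hgn : g.n = 0 := by
    by_contra hne
    -- choose `t = 1 / (8 (|n| + 1))`
    have hnR : (0 : ℝ) < |(g.n : ℝ)| := abs_pos.2 (by exact_mod_cast hne)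
    obtain ⟨b', hb'⟩ := hvert (1 / (8 * |(g.n : ℝ)|)) (by positivity) (by
      rw [div_le_div_iff₀ (by positivity) (by norm_num)]
      have : (1 : ℝ) ≤ |(g.n : ℝ)| := by
        rw [← Int.cast_abs]
        exact_mod_cast Int.one_le_abs hne
      linarith)
    have h3 : (g.n : ℝ) * (1 / (8 * |(g.n : ℝ)|)) = ((b' - b : ℤ) : ℝ) := by
      push_cast; rw [mul_zero, add_zero] at hb; linarith
    have h4 : |(g.n : ℝ) * (1 / (8 * |(g.n : ℝ)|))| = 1 / 8 := by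
      rw [abs_mul, abs_of_pos (show (0 : ℝ) < 1 / (8 * |(g.n : ℝ)|) by positivity)]
      field_simp
    rw [h3, ← Int.cast_abs] at h4
    have h5 : ((8 * |b' - b| : ℤ) : ℝ) = ((1 : ℤ) : ℝ) := by
      rw [Int.cast_mul, h4]
      norm_num
    have h6 : 8 * |b' - b| = 1 := by exact_mod_cast h5
    omega
  obtain ⟨w, rfl⟩ := QuotientGroup.mk_surjective z
  change g • ((w : G) : G ⧸ Γ k) = ((w : G) : G ⧸ Γ k)
  rw [smul_coe, coe_eq]
  rw [hgn, Int.cast_zero, zero_mul, add_zero] at hb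
  refine ⟨?_, ⟨-a, ?_⟩, ⟨-b + w.n * a, ?_⟩⟩
  · simp [hgn]
  · simp [ha]
  · simp only [mul_y, inv_y, mul_x, mul_n, inv_n, ha, hb, hgn]; push_cast; ring

/-- the return times -/
lemma return_times (k : ℕ) (m : ℤ) :
    τ ^ m • (((1 : G) : G ⧸ Γ k)) ∈ U k ↔ (τ ^ m).x ∈ P ∧ (τ ^ m).y ∈ P := by
  rw [smul_coe, mul_one]
  exact Set.ext_iff.1 (preimage_U k) (τ ^ m)

lemma connected : ConnectedSpace (G ⧸ Γ 1) := by
  have h1 : IsConnected ((fun g : G => (g : G ⧸ Γ 1)) '' (range fun p : ℝ × ℝ => mk 0 p.1 p.2)) :=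
    (isConnected_range (continuous_mk2 continuous_fst continuous_snd)).image _
      (continuous_coe' 1).continuousOn
  have h2 : (fun g : G => (g : G ⧸ Γ 1)) '' (range fun p : ℝ × ℝ => mk 0 p.1 p.2) = univ := by
    rw [eq_univ_iff_forall]
    intro q
    obtain ⟨g, rfl⟩ := QuotientGroup.mk_surjective q
    refine ⟨_, ⟨(g.x, g.y), rfl⟩, ?_⟩
    change ((mk 0 g.x g.y : G) : G ⧸ Γ 1) = g
    rw [coe_eq]
    refine ⟨?_, ⟨0, ?_⟩, ⟨0, ?_⟩⟩ <;> simp
  rw [h2] at h1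
  exact connectedSpace_iff_univ.2 h1

/-- the parity on `G ⧸ Γ 2` -/
def parity : G ⧸ Γ 2 → ZMod 2 :=
  Quotient.lift (fun g : G => ((g.n : ℤ) : ZMod 2)) (by
    intro g h hgh
    have h1 : g⁻¹ * h ∈ Γ 2 := QuotientGroup.leftRel_apply.1 hgh
    have h2 := h1.1
    simp only [mul_n, inv_n] at h2
    have h3 : (((-g.n + h.n : ℤ)) : ZMod 2) = 0 := (ZMod.intCast_zmod_eq_zero_iff_dvd _ 2).2 h2
    push_cast at h3
    have : ((h.n : ℤ) : ZMod 2) = ((g.n : ℤ) : ZMod 2) := by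
      linear_combination h3
    exact this.symm)

lemma parity_continuous : Continuous parity := by
  apply Continuous.quotient_lift
  exact (continuous_of_discreteTopology (f := fun m : ℤ => ((m : ℤ) : ZMod 2))).comp continuous_n

lemma not_homeo : IsEmpty (G ⧸ Γ 1 ≃ₜ G ⧸ Γ 2) := by
  refine ⟨fun φ => ?_⟩
  haveI := connected
  have h1 : Continuous fun z => parity (φ z) := parity_continuous.comp φ.continuous
  have h2 : ∀ z w, parity (φ z) = parity (φ w) := fun z w =>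
    PreconnectedSpace.constant inferInstance h1
  have h3 := h2 (φ.symm ((mk 0 0 0 : G) : G ⧸ Γ 2)) (φ.symm ((mk 1 0 0 : G) : G ⧸ Γ 2))
  rw [φ.apply_symm_apply, φ.apply_symm_apply] at h3
  have h4 : ((0 : ℤ) : ZMod 2) = ((1 : ℤ) : ZMod 2) := h3
  revert h4
  decide

end G

open G

/-- `X_k = G ⧸ Γ` with the translation by `τ` is minimal: the orbit `{τⁿ x : n ∈ ℤ}` of each point
is dense. -/
def IsMinimalTranslation {G : Type} [Group G] [TopologicalSpace G] (Γ : Subgroup G) (τ : G) : Prop :=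
  ∀ x : G ⧸ Γ, Dense (range fun n : ℤ => τ ^ n • x)

/-- `U` has asymmetric closure: each `g` with `g (closure U) = closure U` acts trivially. -/
def AsymClosure {G : Type} [Group G] [TopologicalSpace G] (Γ : Subgroup G) (U : Set (G ⧸ Γ)) :
    Prop :=
  ∀ g : G, (fun x => g • x) '' closure U = closure U → ∀ x : G ⧸ Γ, g • x = x

/-- `Γ` is a discrete cocompact subgroup of the Polish group `G`. -/
def DiscreteCocompact {G : Type} [Group G] [TopologicalSpace G] (Γ : Subgroup G) : Prop :=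
  DiscreteTopology Γ ∧ CompactSpace (G ⧸ Γ)

/-- The standing hypotheses (H) for `(G₁, Γ₁, τ₁, U₁, x₁)` and `(G₂, Γ₂, τ₂, U₂, x₂)`. -/
structure HypH {G₁ G₂ : Type} [Group G₁] [TopologicalSpace G₁] [Group G₂] [TopologicalSpace G₂]
    (Γ₁ : Subgroup G₁) (Γ₂ : Subgroup G₂) (τ₁ : G₁) (τ₂ : G₂) (U₁ : Set (G₁ ⧸ Γ₁))
    (U₂ : Set (G₂ ⧸ Γ₂)) (x₁ : G₁ ⧸ Γ₁) (x₂ : G₂ ⧸ Γ₂) : Prop where
  lattice₁ : DiscreteCocompact Γ₁
  lattice₂ : DiscreteCocompact Γ₂
  minimal₁ : IsMinimalTranslation Γ₁ τ₁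
  minimal₂ : IsMinimalTranslation Γ₂ τ₂
  open₁ : IsOpen U₁
  open₂ : IsOpen U₂
  asym₁ : AsymClosure Γ₁ U₁
  asym₂ : AsymClosure Γ₂ U₂
  return_times : {n : ℤ | τ₁ ^ n • x₁ ∈ U₁} = {n : ℤ | τ₂ ^ n • x₂ ∈ U₂}

/-- There are a Polish group `G` which is a nilpotent (real-analytic) Lie group, and data
satisfying (H) with `G₁ = G₂ = G`, such that `G ⧸ Γ₁` and `G ⧸ Γ₂` are not even homeomorphic. -/
theorem result :
    PolishSpace G ∧ IsTopologicalGroup G ∧ LieGroup G.I ω G ∧ Group.IsNilpotent G ∧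
    ∃ (Γ₁ Γ₂ : Subgroup G) (τ₁ τ₂ : G) (U₁ : Set (G ⧸ Γ₁)) (U₂ : Set (G ⧸ Γ₂))
      (x₁ : G ⧸ Γ₁) (x₂ : G ⧸ Γ₂), HypH Γ₁ Γ₂ τ₁ τ₂ U₁ U₂ x₁ x₂ ∧
      IsEmpty (G ⧸ Γ₁ ≃ₜ G ⧸ Γ₂) ∧
      ¬ ∃ φ : G ⧸ Γ₁ ≃ₜ G ⧸ Γ₂, (∀ x, φ (τ₁ • x) = τ₂ • φ x) ∧ φ x₁ = x₂ := by
  refine ⟨inferInstance, inferInstance, inferInstance, inferInstance, Γ 1, Γ 2, τ, τ, U 1, U 2,
    ((1 : G) : G ⧸ Γ 1), ((1 : G) : G ⧸ Γ 2), ?_, not_homeo, fun ⟨φ, _⟩ => not_homeo.elim φ⟩
  exact {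
    lattice₁ := ⟨discrete 1, compact one_pos⟩
    lattice₂ := ⟨discrete 2, compact two_pos⟩
    minimal₁ := minimal one_pos
    minimal₂ := minimal two_pos
    open₁ := U_open 1
    open₂ := U_open 2
    asym₁ := fun g h x => asym h x
    asym₂ := fun g h x => asym h x
    return_times := by
      ext m
      simp only [mem_setOf_eq]
      rw [return_times, return_times] }

end Pool.Agent.Results.MP_2aa58c_an.NotDetermined
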